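import Pool.Agent.H34.FQ.Targets

/-!
# Row HP1 of the board hfq_modules: almost all locally soluble forms have a small zero
-/

set_option autoImplicit false

open Finset Pool.Agent.H32.RQ Pool.Agent.H34.FQ

namespace Pool.Agent.H16.HFQ

private theorem card_cover {α ι κ : Type} [DecidableEq α] (S : Finset α) (P A : α → Prop)
    (C : ι → α → Prop) (D E : κ → α → Prop) [DecidablePred P] [DecidablePred A]
    [∀ i, DecidablePred (C i)] [∀ i, DecidablePred (D i)] [∀ i, DecidablePred (E i)]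
    (I : Finset ι) (J : Finset κ)
    (h : ∀ x ∈ S, P x → A x ∨ (∃ i ∈ I, C i x) ∨ (∃ j ∈ J, D j x) ∨ ∃ j ∈ J, E j x) :
    ((S.filter P).card : ℝ) ≤ ((S.filter A).card : ℝ) + (∑ i ∈ I, ((S.filter (C i)).card : ℝ)) +
      (∑ j ∈ J, ((S.filter (D j)).card : ℝ)) + (∑ j ∈ J, ((S.filter (E j)).card : ℝ)) := by
  have h1 : S.filter P ⊆ ((S.filter A ∪ I.biUnion fun i => S.filter (C i)) ∪
      J.biUnion fun j => S.filter (D j)) ∪ J.biUnion fun j => S.filter (E j) := by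
    intro x hx
    rw [mem_filter] at hx
    rcases h x hx.1 hx.2 with h | ⟨i, hi, h⟩ | ⟨i, hi, h⟩ | ⟨i, hi, h⟩
    · exact mem_union_left _ (mem_union_left _ (mem_union_left _ (mem_filter.2 ⟨hx.1, h⟩)))
    · exact mem_union_left _ (mem_union_left _ (mem_union_right _
        (mem_biUnion.2 ⟨i, hi, mem_filter.2 ⟨hx.1, h⟩⟩)))
    · exact mem_union_left _ (mem_union_right _ (mem_biUnion.2 ⟨i, hi, mem_filter.2 ⟨hx.1, h⟩⟩))
    · exact mem_union_right _ (mem_biUnion.2 ⟨i, hi, mem_filter.2 ⟨hx.1, h⟩⟩)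
  have h2 := card_le_card h1
  have h3 := card_union_le ((S.filter A ∪ I.biUnion fun i => S.filter (C i)) ∪
      J.biUnion fun j => S.filter (D j)) (J.biUnion fun j => S.filter (E j))
  have h4 := card_union_le (S.filter A ∪ I.biUnion fun i => S.filter (C i))
    (J.biUnion fun j => S.filter (D j))
  have h5 := card_union_le (S.filter A) (I.biUnion fun i => S.filter (C i))
  have h6 : (I.biUnion fun i => S.filter (C i)).card ≤ ∑ i ∈ I, (S.filter (C i)).card :=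
    card_biUnion_le
  have h7 : (J.biUnion fun i => S.filter (D i)).card ≤ ∑ i ∈ J, (S.filter (D i)).card :=
    card_biUnion_le
  have h8 : (J.biUnion fun i => S.filter (E i)).card ≤ ∑ i ∈ J, (S.filter (E i)).card :=
    card_biUnion_le
  have h9 : (S.filter P).card ≤ (S.filter A).card + (∑ i ∈ I, (S.filter (C i)).card) +
      (∑ j ∈ J, (S.filter (D j)).card) + (∑ j ∈ J, (S.filter (E j)).card) := by omega
  exact_mod_cast h9

private theorem SZ1_mono {s : ℕ} {F : Mon s → ℤ} {K K' A : ℕ} {f : Mon s → ℤ} (hK : K ≤ K')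
    (h : SZ1 F K A f) : SZ1 F K' A f := by
  obtain ⟨x, h1, h2, h3, h4⟩ := h
  refine ⟨x, h1, h2, h3, fun j => (h4 j).trans ?_⟩
  have h5 : (0 : ℝ) ≤ A := Nat.cast_nonneg _
  have h6 : (0 : ℝ) ≤ 1 + Real.log A := by
    have := Real.log_natCast_nonneg A
    linarith
  have h7 : (K : ℝ) ≤ K' := Nat.cast_le.2 hK
  exact mul_le_mul_of_nonneg_right (mul_le_mul_of_nonneg_right h7 h5) h6

/-- from the residues to the box -/
private theorem residues {n : ℕ} (hTB1 : T_TB1) {C₂ c X : ℝ} {M A w₀ : ℕ} [NeZero M]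
    (hMA : M ≤ 2 * A + 1) (E : Finset (Mon (n + 2) → ZMod M)) (hw : 1 ≤ w₀)
    (hE : (E.card : ℝ) * (w₀ : ℝ) ^ 2 ≤ C₂ * (M : ℝ) ^ md (n + 2))
    (hc : (2 : ℝ) ^ md (n + 2) * C₂ ≤ c * (w₀ : ℝ) ^ 2)
    (hX : X = (2 * (A : ℝ) + 1) ^ md (n + 2)) :
    (((b1 (n + 2) A).filter fun f => cf (ZMod M) f ∈ E).card : ℝ) ≤ c * X := by
  have h := hTB1 (n + 2) A M E hMA
  have hX0 : 0 ≤ X := by rw [hX]; positivity
  obtain ⟨m, hm⟩ : ∃ m : ℝ, m = (((b1 (n + 2) A).filter fun f => cf (ZMod M) f ∈ E).card : ℝ) :=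
    ⟨_, rfl⟩
  have h' : m * (M : ℝ) ^ md (n + 2) ≤ 2 ^ md (n + 2) * X * E.card := by
    rw [hX, hm]
    exact_mod_cast h
  rw [← hm]
  have hM0 : (0 : ℝ) < (M : ℝ) ^ md (n + 2) := by
    have : 0 < M := Nat.pos_of_ne_zero (NeZero.ne M)
    positivity
  have hw0 : (0 : ℝ) < (w₀ : ℝ) ^ 2 := by
    have : (0 : ℝ) < w₀ := by exact_mod_cast hw
    positivity
  have h1 : m * (w₀ : ℝ) ^ 2 * (M : ℝ) ^ md (n + 2) ≤
      2 ^ md (n + 2) * X * C₂ * (M : ℝ) ^ md (n + 2) := by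
    calc m * (w₀ : ℝ) ^ 2 * (M : ℝ) ^ md (n + 2) = m * (M : ℝ) ^ md (n + 2) * (w₀ : ℝ) ^ 2 := by
          ring
      _ ≤ 2 ^ md (n + 2) * X * E.card * (w₀ : ℝ) ^ 2 := by gcongr
      _ = 2 ^ md (n + 2) * X * (E.card * (w₀ : ℝ) ^ 2) := by ring
      _ ≤ 2 ^ md (n + 2) * X * (C₂ * (M : ℝ) ^ md (n + 2)) := by gcongr
      _ = _ := by ring
  have h2 := le_of_mul_le_mul_right h1 hM0
  have h3 : m * (w₀ : ℝ) ^ 2 ≤ c * X * (w₀ : ℝ) ^ 2 := by
    refine h2.trans ?_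
    have h4 := mul_le_mul_of_nonneg_left hc hX0
    linarith only [h4]
  exact le_of_mul_le_mul_right h3 hw0

theorem pf_HP1 (hMN1 : T_MN1) (hAC1 : T_AC1) (hTB1 : T_TB1) (hLPP : T_LPP) (hRRN : T_RRN) :
    T_HP1 := by
  classical
  intro n F hn hdet hz ε hε
  obtain ⟨k, N, hR⟩ := hRRN n F (by omega) hdet hz
  obtain ⟨C₂, hC₂, hQ⟩ := hAC1 n hn
  obtain ⟨δ, hδdef⟩ : ∃ δ : ℝ, δ = ε / (5 * ((k : ℝ) + 1)) := ⟨_, rfl⟩
  have hδ : 0 < δ := by rw [hδdef]; positivity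
  have hkδ : (k : ℝ) * δ ≤ ε / 5 := by
    rw [hδdef, mul_div_assoc', div_le_div_iff₀ (by positivity) (by norm_num)]
    nlinarith
  -- the choice of `w₀`
  obtain ⟨w₁, hw₁⟩ := exists_nat_ge ((2 : ℝ) ^ md (n + 2) * C₂ / δ)
  obtain ⟨w₀, hw₀⟩ : ∃ w₀ : ℕ, w₀ = w₁ + 1 + ∑ i, (N i).mu.natAbs := ⟨_, rfl⟩
  have hw1 : 1 ≤ w₀ := by omega
  have hw1' : (1 : ℝ) ≤ (w₀ : ℝ) := by exact_mod_cast hw1
  have hw2 : (2 : ℝ) ^ md (n + 2) * C₂ ≤ δ * (w₀ : ℝ) ^ 2 := by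
    have h1 : (2 : ℝ) ^ md (n + 2) * C₂ ≤ w₁ * δ := by
      rwa [div_le_iff₀ hδ] at hw₁
    have h2 : (w₁ : ℝ) ≤ (w₀ : ℝ) ^ 2 := by
      have : (w₁ : ℝ) ≤ w₀ := by
        have : w₁ ≤ w₀ := by omega
        exact_mod_cast this
      nlinarith
    nlinarith
  have hmu : ∀ i, ∀ p : ℕ, p.Prime → (p : ℤ) ∣ (N i).mu → p ≤ w₀ := by
    intro i p _ hp
    have h1 : p ∣ (N i).mu.natAbs := Int.natCast_dvd.1 hp
    have h2 : p ≤ (N i).mu.natAbs :=
      Nat.le_of_dvd (Int.natAbs_pos.2 (N i).mu0) h1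
    have h3 : (N i).mu.natAbs ≤ ∑ i, (N i).mu.natAbs :=
      Finset.single_le_sum (f := fun i => (N i).mu.natAbs) (fun _ _ => Nat.zero_le _)
        (mem_univ i)
    omega
  obtain ⟨V, ρ, hV, hρ, A₁, hA₁⟩ := hR (ε / 5) (by positivity)
  -- the choice of `t`
  obtain ⟨δ', hδ'def⟩ : ∃ δ' : ℝ, δ' = δ / ((w₀ : ℝ) + 1) := ⟨_, rfl⟩
  have hδ' : 0 < δ' := by rw [hδ'def]; positivity
  have hL : ∀ (i : Fin k) (p : ℕ), ∃ t₁ : ℕ, ∀ t : ℕ, t₁ ≤ t → ∃ A₀ : ℕ, ∀ A : ℕ, A₀ ≤ A →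
      p.Prime → (((b1 (n + 2) A).filter fun f => LS ![F, f] ∧ ¬ RP (N i) t p f).card : ℝ) ≤
        δ' * (2 * (A : ℝ) + 1) ^ md (n + 2) := by
    intro i p
    by_cases hp : p.Prime
    · have : Fact p.Prime := ⟨hp⟩
      obtain ⟨t₁, ht₁⟩ := hLPP n F (N i) p δ' (by omega) hdet hδ'
      refine ⟨t₁, fun t ht => ?_⟩
      obtain ⟨A₀, hA₀⟩ := ht₁ t ht
      refine ⟨A₀, fun A hA _ => le_trans ?_ (hA₀ A hA)⟩
      refine Nat.cast_le.2 (card_le_card ?_)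
      intro f hf
      rw [mem_filter] at hf ⊢
      exact ⟨hf.1, hf.2.1.2 p, hf.2.2⟩
    · exact ⟨0, fun t _ => ⟨0, fun A _ h => absurd h hp⟩⟩
  choose t1 ht1 using hL
  obtain ⟨t, ht⟩ : ∃ t : ℕ, t = ∑ i, ∑ p ∈ range (w₀ + 1), t1 i p := ⟨_, rfl⟩
  have htle : ∀ (i : Fin k) (p : ℕ), p ≤ w₀ → t1 i p ≤ t := by
    intro i p hp
    rw [ht]
    have h1 : t1 i p ≤ ∑ p ∈ range (w₀ + 1), t1 i p :=
      Finset.single_le_sum (f := fun p => t1 i p) (fun _ _ => Nat.zero_le _)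
        (mem_range.2 (by omega))
    have h2 : ∑ p ∈ range (w₀ + 1), t1 i p ≤ ∑ i, ∑ p ∈ range (w₀ + 1), t1 i p :=
      Finset.single_le_sum (f := fun i => ∑ p ∈ range (w₀ + 1), t1 i p)
        (fun _ _ => Nat.zero_le _) (mem_univ i)
    exact h1.trans h2
  have hL2 : ∀ (i : Fin k) (p : ℕ), ∃ A₀ : ℕ, p ≤ w₀ → ∀ A : ℕ, A₀ ≤ A →
      p.Prime → (((b1 (n + 2) A).filter fun f => LS ![F, f] ∧ ¬ RP (N i) t p f).card : ℝ) ≤
        δ' * (2 * (A : ℝ) + 1) ^ md (n + 2) := by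
    intro i p
    by_cases hp : p ≤ w₀
    · obtain ⟨A₀, hA₀⟩ := ht1 i p t (htle i p hp)
      exact ⟨A₀, fun _ => hA₀⟩
    · exact ⟨0, fun h => absurd h hp⟩
  choose A2 hA2 using hL2
  have hM := fun i : Fin k => hMN1 n F (N i) t w₀ V ρ hn hV hρ (hmu i) δ hδ
  choose W K A3 hW hWp hA3 using hM
  refine ⟨∑ i, K i, A₁ + (∑ i, ∑ p ∈ range (w₀ + 1), A2 i p) + (∑ i, A3 i) + ∑ i, W i,
    fun A hA => ?_⟩
  have hKle : ∀ i, K i ≤ ∑ i, K i := fun i =>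
    Finset.single_le_sum (f := fun i => K i) (fun _ _ => Nat.zero_le _) (mem_univ i)
  have hA3le : ∀ i, A3 i ≤ ∑ i, A3 i := fun i =>
    Finset.single_le_sum (f := fun i => A3 i) (fun _ _ => Nat.zero_le _) (mem_univ i)
  have hWle : ∀ i, W i ≤ ∑ i, W i := fun i =>
    Finset.single_le_sum (f := fun i => W i) (fun _ _ => Nat.zero_le _) (mem_univ i)
  have hA2le : ∀ (i : Fin k) (p : ℕ), p ≤ w₀ → A2 i p ≤ ∑ i, ∑ p ∈ range (w₀ + 1), A2 i p := by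
    intro i p hp
    have h1 : A2 i p ≤ ∑ p ∈ range (w₀ + 1), A2 i p :=
      Finset.single_le_sum (f := fun p => A2 i p) (fun _ _ => Nat.zero_le _)
        (mem_range.2 (by omega))
    have h2 : ∑ p ∈ range (w₀ + 1), A2 i p ≤ ∑ i, ∑ p ∈ range (w₀ + 1), A2 i p :=
      Finset.single_le_sum (f := fun i => ∑ p ∈ range (w₀ + 1), A2 i p)
        (fun _ _ => Nat.zero_le _) (mem_univ i)
    exact h1.trans h2
  obtain ⟨X, hX⟩ : ∃ X : ℝ, X = (2 * (A : ℝ) + 1) ^ md (n + 2) := ⟨_, rfl⟩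
  have hX0 : 0 ≤ X := by rw [hX]; positivity
  rw [← hX]
  have hcov := card_cover (b1 (n + 2) A) (fun f => LS ![F, f] ∧ ¬ SZ1 F (∑ i, K i) A f)
    (fun f => (∃ x : Fin (n + 2) → ℝ, x ≠ 0 ∧
      ∀ i, qf (cm ℝ ![F, f] i) x = 0) ∧ ∀ i, ¬ RBN (N i) ρ V A f)
    (fun (q : Fin k × ℕ) f => LS ![F, f] ∧ ¬ RP (N q.1) t q.2 f)
    (fun (i : Fin k) f => RBN (N i) ρ V A f ∧ (∀ p : ℕ, p.Prime → p ≤ w₀ → RP (N i) t p f) ∧
      W i ^ (n - 1) ≤ 2 * @aN n F (N i) (W i) (hW i) (cf (ZMod (W i)) f) ∧ ¬ SZ1 F (K i) A f)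
    (fun (i : Fin k) f => 2 * @aN n F (N i) (W i) (hW i) (cf (ZMod (W i)) f) < W i ^ (n - 1))
    (univ ×ˢ (range (w₀ + 1)).filter Nat.Prime) univ (by
      rintro f hf ⟨h1, h2⟩
      by_cases hb : ∀ i, ¬ RBN (N i) ρ V A f
      · exact Or.inl ⟨h1.1, hb⟩
      push Not at hb
      obtain ⟨i, hi⟩ := hb
      by_cases hp : ∀ p : ℕ, p.Prime → p ≤ w₀ → RP (N i) t p f
      · by_cases ha : 2 * @aN n F (N i) (W i) (hW i) (cf (ZMod (W i)) f) < W i ^ (n - 1)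
        · exact Or.inr (Or.inr (Or.inr ⟨i, mem_univ _, ha⟩))
        · exact Or.inr (Or.inr (Or.inl ⟨i, mem_univ _, hi, hp, not_lt.1 ha,
            fun h => h2 (SZ1_mono (hKle i) h)⟩))
      · push Not at hp
        obtain ⟨p, hp1, hp2, hp3⟩ := hp
        exact Or.inr (Or.inl ⟨(i, p), mem_product.2 ⟨mem_univ _, mem_filter.2
          ⟨mem_range.2 (by omega), hp1⟩⟩, h1, hp3⟩))
  have b1' := hA₁ A (by omega)
  rw [← hX] at b1'
  have b2 : (∑ q ∈ (univ : Finset (Fin k)) ×ˢ (range (w₀ + 1)).filter Nat.Prime,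
      (((b1 (n + 2) A).filter fun f => LS ![F, f] ∧ ¬ RP (N q.1) t q.2 f).card : ℝ)) ≤
      ε / 5 * X := by
    have h1 : ∀ q ∈ (univ : Finset (Fin k)) ×ˢ (range (w₀ + 1)).filter Nat.Prime,
        (((b1 (n + 2) A).filter fun f => LS ![F, f] ∧ ¬ RP (N q.1) t q.2 f).card : ℝ) ≤
          δ' * X := by
      rintro ⟨i, p⟩ hq
      rw [mem_product, mem_filter, mem_range] at hq
      have hp : p ≤ w₀ := by have := hq.2.1; omega
      have h3 := hA2le i p hp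
      have h4 := hA2 i p hp A (by omega) hq.2.2
      rw [← hX] at h4
      exact h4
    refine (Finset.sum_le_card_nsmul _ _ _ h1).trans ?_
    rw [nsmul_eq_mul]
    have hc : ((((univ : Finset (Fin k)) ×ˢ (range (w₀ + 1)).filter Nat.Prime).card : ℕ) : ℝ) ≤
        k * ((w₀ : ℝ) + 1) := by
      have : ((univ : Finset (Fin k)) ×ˢ (range (w₀ + 1)).filter Nat.Prime).card ≤
          k * (w₀ + 1) := by
        rw [card_product, card_univ, Fintype.card_fin]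
        exact Nat.mul_le_mul_left _ ((card_filter_le _ _).trans (by rw [card_range]))
      exact_mod_cast this
    refine (mul_le_mul_of_nonneg_right hc (mul_nonneg hδ'.le hX0)).trans ?_
    have h5 : (k : ℝ) * ((w₀ : ℝ) + 1) * (δ' * X) = k * δ * X := by
      rw [hδ'def]; field_simp
    rw [h5]
    exact mul_le_mul_of_nonneg_right hkδ hX0
  have b3 : (∑ i : Fin k, (((b1 (n + 2) A).filter fun f => RBN (N i) ρ V A f ∧
      (∀ p : ℕ, p.Prime → p ≤ w₀ → RP (N i) t p f) ∧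
      W i ^ (n - 1) ≤ 2 * @aN n F (N i) (W i) (hW i) (cf (ZMod (W i)) f) ∧
      ¬ SZ1 F (K i) A f).card : ℝ)) ≤ ε / 5 * X := by
    have h1 : ∀ i ∈ (univ : Finset (Fin k)), (((b1 (n + 2) A).filter fun f =>
        RBN (N i) ρ V A f ∧ (∀ p : ℕ, p.Prime → p ≤ w₀ → RP (N i) t p f) ∧
        W i ^ (n - 1) ≤ 2 * @aN n F (N i) (W i) (hW i) (cf (ZMod (W i)) f) ∧
        ¬ SZ1 F (K i) A f).card : ℝ) ≤ δ * X := by
      intro i _
      have h3 := hA3le i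
      have h4 := hA3 i A (by omega)
      rw [← hX] at h4
      exact h4
    refine (Finset.sum_le_card_nsmul _ _ _ h1).trans ?_
    rw [nsmul_eq_mul, card_univ, Fintype.card_fin, ← mul_assoc]
    exact mul_le_mul_of_nonneg_right hkδ hX0
  have b4 : (∑ i : Fin k, (((b1 (n + 2) A).filter fun f =>
      2 * @aN n F (N i) (W i) (hW i) (cf (ZMod (W i)) f) < W i ^ (n - 1)).card : ℝ)) ≤
      ε / 5 * X := by
    have h1 : ∀ i ∈ (univ : Finset (Fin k)), (((b1 (n + 2) A).filter fun f =>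
        2 * @aN n F (N i) (W i) (hW i) (cf (ZMod (W i)) f) < W i ^ (n - 1)).card : ℝ) ≤
          δ * X := by
      intro i _
      have : NeZero (W i) := hW i
      have h3 := hWle i
      have hE := hQ F (N i) (W i) w₀ hw1 (fun p hp hpW => ⟨hWp i p hp hpW, fun h => by
        have h4 := hmu i p hp h
        have h5 := hWp i p hp hpW
        omega⟩)
      have h4 := residues hTB1 (A := A) (by omega) (univ.filter fun f : Mon (n + 2) → ZMod (W i) =>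
        2 * aN (N i) (W i) f < W i ^ (n - 1)) hw1 hE hw2 hX
      refine le_trans (Nat.cast_le.2 (card_le_card ?_)) h4
      intro f hf
      rw [mem_filter] at hf ⊢
      exact ⟨hf.1, mem_filter.2 ⟨mem_univ _, hf.2⟩⟩
    refine (Finset.sum_le_card_nsmul _ _ _ h1).trans ?_
    rw [nsmul_eq_mul, card_univ, Fintype.card_fin, ← mul_assoc]
    exact mul_le_mul_of_nonneg_right hkδ hX0
  have e1 : (((b1 (n + 2) A).filter fun f => LS ![F, f] ∧ ¬ SZ1 F (∑ i, K i) A f).card : ℝ) ≤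
      ε / 5 * X + ε / 5 * X + ε / 5 * X + ε / 5 * X :=
    hcov.trans (add_le_add (add_le_add (add_le_add b1' b2) b3) b4)
  have h9 : 0 ≤ ε / 5 * X := by positivity
  linarith only [e1, h9]

end Pool.Agent.H16.HFQ
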