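import Pool.Agent.H34.FQ.Targets

/-!
# Row RR1 of the board hfq_modules: the forms which are not robust at the real place are rare
-/

set_option autoImplicit false

open Finset Pool.Agent.H32.RQ Pool.Agent.H34.FQ

namespace Pool.Agent.H16.HFQ

section

variable {s : ℕ}

/-- the square of the first coordinate -/
private def p0 (hs : 1 ≤ s) : Mon s := ⟨(⟨0, hs⟩, ⟨0, hs⟩), le_refl _⟩

/-- the difference with a multiple of the sum of the squares -/
private def key (hs : 1 ≤ s) (f : Mon s → ℤ) : Mon s → ℤ :=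
  fun p => if p.1.1 = p.1.2 then f p - f (p0 hs) else f p

private theorem key_inj (hs : 1 ≤ s) {f g : Mon s → ℤ} (h : key hs f = key hs g)
    (h0 : f (p0 hs) = g (p0 hs)) : f = g := by
  funext p
  have h1 := congrFun h p
  unfold key at h1
  split_ifs at h1
  · omega
  · exact h1

private theorem qf_key (hs : 1 ≤ s) {f g : Mon s → ℤ} (h : key hs f = key hs g)
    (x : Fin s → ℝ) : qf (cf ℝ g) x = qf (cf ℝ f) x + ((g (p0 hs) : ℝ) - f (p0 hs)) *
      ∑ p : Mon s, if p.1.1 = p.1.2 then x p.1.1 * x p.1.2 else 0 := by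
  unfold qf
  rw [Finset.mul_sum, ← Finset.sum_add_distrib]
  refine Finset.sum_congr rfl fun p _ => ?_
  have h1 := congrFun h p
  unfold key at h1
  unfold cf
  split_ifs at h1 ⊢
  · have h2 : (g p : ℝ) = f p + ((g (p0 hs) : ℝ) - f (p0 hs)) := by
      have h3 : g p = f p + (g (p0 hs) - f (p0 hs)) := by omega
      rw [h3]
      push_cast
      ring
    rw [h2]
    ring
  · rw [← h1]
    ring

private theorem one_le_squares (x : Fin s → ℝ) {j : Fin s} (hj : |x j| = 1) :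
    1 ≤ ∑ p : Mon s, if p.1.1 = p.1.2 then x p.1.1 * x p.1.2 else 0 := by
  have h1 : ∀ p ∈ (univ : Finset (Mon s)),
      0 ≤ (if p.1.1 = p.1.2 then x p.1.1 * x p.1.2 else 0) := by
    intro p _
    split_ifs with h
    · rw [← h]
      exact mul_self_nonneg _
    · exact le_refl _
  have h2 := Finset.single_le_sum h1 (mem_univ (⟨(j, j), le_refl _⟩ : Mon s))
  refine le_trans ?_ h2
  rw [if_pos rfl]
  have h3 : x j * x j = |x j| * |x j| := (abs_mul_abs_self _).symm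
  exact (le_of_eq (by simp only [h3, hj, mul_one]))

/-- the forms of the first or of the second kind -/
private def Kd (F : Mon s → ℤ) (σ r : ℝ) (f : Mon s → ℤ) : Prop :=
  (∃ z : Fin s → ℝ, (∀ j, |z j| ≤ 1) ∧ (∃ j, |z j| = 1) ∧ qf (cf ℝ F) z = 0 ∧
    qf (cf ℝ f) z = 0) ∧
  ∀ x : Fin s → ℝ, (∀ j, |x j| ≤ 1) → (∃ j, |x j| = 1) → qf (cf ℝ F) x = 0 →
    σ * qf (cf ℝ f) x < r

private theorem Kd_pair (hs : 1 ≤ s) {F f g : Mon s → ℤ} {σ r : ℝ} (hr : 0 < r)
    (h : key hs f = key hs g) (hf : Kd F σ r f) (hg : Kd F σ r g) :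
    σ * ((g (p0 hs) : ℝ) - f (p0 hs)) < r := by
  by_cases h0 : σ * ((g (p0 hs) : ℝ) - f (p0 hs)) ≤ 0
  · linarith
  obtain ⟨z, hz1, ⟨j, hj⟩, hz3, hz4⟩ := hf.1
  have h1 := hg.2 z hz1 ⟨j, hj⟩ hz3
  rw [qf_key hs h z, hz4, zero_add, ← mul_assoc] at h1
  have h2 := one_le_squares z hj
  push Not at h0
  have h3 := mul_le_mul_of_nonneg_left h2 h0.le
  linarith

private theorem card_kind (hs : 1 ≤ s) (F : Mon s → ℤ) (σ r : ℝ) (hr : 0 < r)
    (hσ : σ = 1 ∨ σ = -1) (S : Finset (Mon s → ℤ)) (A : ℕ) (hS : ∀ f ∈ S, f ∈ b1 s A ∧ Kd F σ r f) :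
    S.card ≤ ⌈r⌉₊ * (4 * A + 1) ^ (md s - 1) := by
  classical
  have h1 : S.card ≤ ⌈r⌉₊ * (S.image (key hs)).card := by
    refine card_le_mul_card_image S _ fun k hk => ?_
    rcases (S.filter fun f => key hs f = k).eq_empty_or_nonempty with h | h
    · rw [h, card_empty]
      exact Nat.zero_le _
    obtain ⟨f₀, hf₀, hmin⟩ := exists_min_image _ (fun f : Mon s → ℤ => f (p0 hs)) h
    rw [mem_filter] at hf₀
    have h2 : (S.filter fun f => key hs f = k).card ≤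
        (Finset.Ico (f₀ (p0 hs)) (f₀ (p0 hs) + ⌈r⌉₊)).card := by
      refine card_le_card_of_injOn (fun f => f (p0 hs)) ?_ ?_
      · intro f hf
        have hf' := mem_filter.1 (mem_coe.1 hf)
        rw [mem_coe, mem_Ico]
        refine ⟨hmin f (mem_coe.1 hf), ?_⟩
        have h3 : key hs f₀ = key hs f := by rw [hf₀.2, hf'.2]
        have h4 := Kd_pair hs hr h3 (hS _ hf₀.1).2 (hS _ hf'.1).2
        have h5 := Kd_pair hs hr h3.symm (hS _ hf'.1).2 (hS _ hf₀.1).2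
        have h6 : ((f (p0 hs) : ℝ) - f₀ (p0 hs)) < r := by
          rcases hσ with rfl | rfl
          · linarith
          · linarith
        have h7 : ((f (p0 hs) : ℝ) - f₀ (p0 hs)) < (⌈r⌉₊ : ℝ) := h6.trans_le (Nat.le_ceil r)
        have h8 : f (p0 hs) - f₀ (p0 hs) < (⌈r⌉₊ : ℤ) := by exact_mod_cast h7
        change f (p0 hs) < _
        omega
      · intro f hf g hg hfg
        have hf' := mem_filter.1 (mem_coe.1 hf)
        have hg' := mem_filter.1 (mem_coe.1 hg)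
        exact key_inj hs (by rw [hf'.2, hg'.2]) hfg
    rw [Int.card_Ico] at h2
    omega
  have h2 : (S.image (key hs)).card ≤ (4 * A + 1) ^ (md s - 1) := by
    have h3 : S.image (key hs) ⊆ Fintype.piFinset (fun p : Mon s =>
        if p = p0 hs then ({0} : Finset ℤ) else Finset.Icc (-(2 * A : ℤ)) (2 * A)) := by
      intro k hk
      rw [mem_image] at hk
      obtain ⟨f, hf, rfl⟩ := hk
      have hb := (hS f hf).1
      unfold b1 at hb
      rw [Fintype.mem_piFinset] at hb ⊢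
      intro p
      have h4 := mem_Icc.1 (hb p)
      have h5 := mem_Icc.1 (hb (p0 hs))
      by_cases hp : p = p0 hs
      · rw [if_pos hp, mem_singleton, hp]
        unfold key
        split_ifs with h6
        · exact sub_self _
        · exact absurd rfl h6
      · rw [if_neg hp, mem_Icc]
        unfold key
        split_ifs <;> constructor <;> omega
    refine (card_le_card h3).trans ?_
    rw [Fintype.card_piFinset, ← Finset.mul_prod_erase univ _ (mem_univ (p0 hs)), if_pos rfl,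
      card_singleton, one_mul]
    have h4 : ∀ p ∈ univ.erase (p0 hs), (if p = p0 hs then ({0} : Finset ℤ) else
        Finset.Icc (-(2 * A : ℤ)) (2 * A)).card = 4 * A + 1 := by
      intro p hp
      rw [if_neg (ne_of_mem_erase hp), Int.card_Icc]
      omega
    rw [Finset.prod_congr rfl h4, prod_const, card_erase_of_mem (mem_univ _), card_univ]
  exact h1.trans (Nat.mul_le_mul_left _ h2)

private theorem normalise (hs : 1 ≤ s) {F f : Mon s → ℤ} {x : Fin s → ℝ} (hx : x ≠ 0)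
    (h1 : qf (cf ℝ F) x = 0) (h2 : qf (cf ℝ f) x = 0) :
    ∃ z : Fin s → ℝ, (∀ j, |z j| ≤ 1) ∧ (∃ j, |z j| = 1) ∧ qf (cf ℝ F) z = 0 ∧
    qf (cf ℝ f) z = 0 := by
  obtain ⟨j, -, hj⟩ := exists_max_image (univ : Finset (Fin s)) (fun j => |x j|)
    ⟨⟨0, hs⟩, mem_univ _⟩
  have hpos : 0 < |x j| := by
    by_contra h
    apply hx
    funext i
    have h3 := hj i (mem_univ i)
    have h4 := abs_nonneg (x i)
    have h5 : |x i| = 0 := by linarith
    exact abs_eq_zero.1 h5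
  have hsm : ∀ g : Mon s → ℤ, qf (cf ℝ g) (fun i => |x j|⁻¹ * x i) =
      (|x j|⁻¹) ^ 2 * qf (cf ℝ g) x := by
    intro g
    unfold qf
    rw [Finset.mul_sum]
    refine Finset.sum_congr rfl fun q _ => ?_
    ring
  refine ⟨fun i => |x j|⁻¹ * x i, fun i => ?_, ⟨j, ?_⟩, ?_, ?_⟩
  · rw [abs_mul, abs_inv, abs_abs, inv_mul_le_iff₀ hpos, mul_one]
    exact hj i (mem_univ i)
  · rw [abs_mul, abs_inv, abs_abs, inv_mul_cancel₀ hpos.ne']
  · rw [hsm, h1, mul_zero]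
  · rw [hsm, h2, mul_zero]

end

theorem pf_RR1 : T_RR1 := by
  classical
  intro s F hs
  refine ⟨2 ^ md s, by positivity, fun ρ hρ hρ1 => ?_⟩
  obtain ⟨A₀, hA₀⟩ := exists_nat_ge (1 / ρ)
  refine ⟨A₀ + 1, fun A hA => ?_⟩
  have hA1 : (1 : ℝ) ≤ ρ * A := by
    have h1 : 1 / ρ ≤ (A : ℝ) := by
      have : (A₀ : ℝ) ≤ A := by
        have : A₀ ≤ A := by omega
        exact_mod_cast this
      linarith
    rw [div_le_iff₀ hρ] at h1
    linarith
  have hr : 0 < ρ * (A : ℝ) := by linarith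
  obtain ⟨S, hS⟩ : ∃ S : Finset (Mon s → ℤ), S = (b1 s A).filter fun f =>
      (∃ x : Fin s → ℝ, x ≠ 0 ∧ qf (cf ℝ F) x = 0 ∧ qf (cf ℝ f) x = 0) ∧ ¬ RB1 F ρ A f :=
    ⟨_, rfl⟩
  rw [← hS]
  have hsub : S ⊆ S.filter (Kd F 1 (ρ * A)) ∪ S.filter (Kd F (-1) (ρ * A)) := by
    intro f hf
    have hf' := hf
    rw [hS, mem_filter] at hf'
    obtain ⟨hb, ⟨x, hx, h1, h2⟩, hR⟩ := hf'
    have hz := normalise hs hx h1 h2
    rw [mem_union, mem_filter, mem_filter]
    by_contra hcon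
    push Not at hcon
    apply hR
    have k1 : ¬ Kd F 1 (ρ * A) f := hcon.1 hf
    have k2 : ¬ Kd F (-1) (ρ * A) f := hcon.2 hf
    have k1' : ¬ ∀ x : Fin s → ℝ, (∀ j, |x j| ≤ 1) → (∃ j, |x j| = 1) → qf (cf ℝ F) x = 0 →
        1 * qf (cf ℝ f) x < ρ * A := fun h => k1 ⟨hz, h⟩
    have k2' : ¬ ∀ x : Fin s → ℝ, (∀ j, |x j| ≤ 1) → (∃ j, |x j| = 1) → qf (cf ℝ F) x = 0 →
        -1 * qf (cf ℝ f) x < ρ * A := fun h => k2 ⟨hz, h⟩
    push Not at k1' k2'
    obtain ⟨y, hy1, hy2, hy3, hy4⟩ := k1'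
    obtain ⟨y', hy1', hy2', hy3', hy4'⟩ := k2'
    exact ⟨y, y', hy1, hy2, hy1', hy2', hy3, hy3', by linarith, by linarith⟩
  have hkind : ∀ σ : ℝ, (σ = 1 ∨ σ = -1) → (S.filter (Kd F σ (ρ * A))).card ≤
      ⌈ρ * (A : ℝ)⌉₊ * (4 * A + 1) ^ (md s - 1) := by
    intro σ hσ
    refine card_kind hs F σ _ hr hσ _ A fun f hf => ?_
    rw [mem_filter] at hf
    refine ⟨?_, hf.2⟩
    have := hf.1
    rw [hS, mem_filter] at this
    exact this.1
  have hcard : S.card ≤ 2 * (⌈ρ * (A : ℝ)⌉₊ * (4 * A + 1) ^ (md s - 1)) := by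
    refine (card_le_card hsub).trans ((card_union_le _ _).trans ?_)
    have h1 := hkind 1 (Or.inl rfl)
    have h2 := hkind (-1) (Or.inr rfl)
    omega
  have hmd : md s = (md s - 1) + 1 := by
    have : 0 < md s := Fintype.card_pos_iff.2 ⟨p0 hs⟩
    omega
  have hcard' : (S.card : ℝ) ≤ 2 * ((⌈ρ * (A : ℝ)⌉₊ : ℝ) * (4 * (A : ℝ) + 1) ^ (md s - 1)) := by
    exact_mod_cast hcard
  have hceil : (⌈ρ * (A : ℝ)⌉₊ : ℝ) ≤ ρ * (2 * A + 1) := by
    have h1 := Nat.ceil_lt_add_one hr.le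
    linarith
  have hA0 : (0 : ℝ) ≤ A := Nat.cast_nonneg _
  have hpow : (4 * (A : ℝ) + 1) ^ (md s - 1) ≤ (2 * (2 * (A : ℝ) + 1)) ^ (md s - 1) := by
    apply pow_le_pow_left₀ (by positivity)
    linarith
  calc (S.card : ℝ) ≤ 2 * ((⌈ρ * (A : ℝ)⌉₊ : ℝ) * (4 * (A : ℝ) + 1) ^ (md s - 1)) := hcard'
    _ ≤ 2 * ((ρ * (2 * A + 1)) * (2 * (2 * (A : ℝ) + 1)) ^ (md s - 1)) := by
      apply mul_le_mul_of_nonneg_left _ (by norm_num)
      exact mul_le_mul hceil hpow (by positivity) (by positivity)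
    _ = 2 ^ ((md s - 1) + 1) * ρ * (2 * (A : ℝ) + 1) ^ ((md s - 1) + 1) := by
      rw [mul_pow, pow_succ, pow_succ]
      ring
    _ = 2 ^ md s * ρ * (2 * (A : ℝ) + 1) ^ md s := by rw [← hmd]

end Pool.Agent.H16.HFQ
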