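import Pool.Agent.H34.FQ.Targets

/-!
# Row SE0 of the board hfq_modules: the sum over the pairs of points
-/

set_option autoImplicit false

open Finset Pool.Agent.H32.RQ Pool.Agent.H34.FQ

namespace Pool.Agent.H16.HFQ

section

variable {s : ℕ}

private theorem gm_dvd (x y : Fin s → ℤ) (i j : Fin s) : gm x y ∣ (mnr x y i j).natAbs :=
  Finset.gcd_dvd (f := fun p : Fin s × Fin s => (mnr x y p.1 p.2).natAbs) (mem_univ (i, j))

private theorem le_dm (x y : Fin s → ℤ) (i j : Fin s) : (mnr x y i j).natAbs ≤ dm x y :=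
  Finset.le_sup (f := fun p : Fin s × Fin s => (mnr x y p.1 p.2).natAbs) (mem_univ (i, j))

private theorem exists_minor {x y : Fin s → ℤ} (h : dm x y ≠ 0) :
    ∃ i j, (mnr x y i j).natAbs ≠ 0 := by
  by_contra hcon
  push Not at hcon
  apply h
  unfold dm
  refine Nat.le_zero.1 (Finset.sup_le fun p _ => ?_)
  exact (hcon p.1 p.2).le

private theorem gm_pos {x y : Fin s → ℤ} (h : dm x y ≠ 0) : 1 ≤ gm x y := by
  obtain ⟨i, j, hij⟩ := exists_minor h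
  refine Nat.one_le_iff_ne_zero.2 fun h0 => ?_
  have h1 := gm_dvd x y i j
  rw [h0, zero_dvd_iff] at h1
  exact hij h1

private theorem gm_le_dm {x y : Fin s → ℤ} (h : dm x y ≠ 0) : gm x y ≤ dm x y := by
  obtain ⟨i, j, hij⟩ := exists_minor h
  exact (Nat.le_of_dvd (Nat.pos_of_ne_zero hij) (gm_dvd x y i j)).trans (le_dm x y i j)

private theorem dm_le {x y : Fin s → ℤ} {B : ℕ} (hx : ∀ i, |x i| ≤ B) (hy : ∀ i, |y i| ≤ B) :
    dm x y ≤ 2 * B ^ 2 := by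
  unfold dm
  refine Finset.sup_le fun p _ => ?_
  have h1 : |mnr x y p.1 p.2| ≤ 2 * (B : ℤ) ^ 2 := by
    unfold mnr
    have h2 : |x p.1 * y p.2| ≤ (B : ℤ) * B := by
      rw [abs_mul]
      exact mul_le_mul (hx _) (hy _) (abs_nonneg _) (Nat.cast_nonneg _)
    have h3 : |x p.2 * y p.1| ≤ (B : ℤ) * B := by
      rw [abs_mul]
      exact mul_le_mul (hx _) (hy _) (abs_nonneg _) (Nat.cast_nonneg _)
    have h4 := abs_sub (x p.1 * y p.2) (x p.2 * y p.1)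
    nlinarith
  have h2 : ((mnr x y p.1 p.2).natAbs : ℤ) ≤ ((2 * B ^ 2 : ℕ) : ℤ) := by
    rw [Int.natCast_natAbs]
    push_cast
    exact h1
  exact_mod_cast h2

end

section

variable {n : ℕ}

private theorem dm_vt_le (x y : Fin (n + 2) → ℤ) : dm (vt x) (vt y) ≤ dm x y := by
  conv_lhs => unfold dm
  refine Finset.sup_le fun p _ => ?_
  exact le_dm x y p.1.succ.succ p.2.succ.succ

private theorem prop_mod {x y : Fin (n + 2) → ℤ} (hx : Prm x) :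
    ∃ k : ℤ, ∀ j, ((gm x y : ℕ) : ℤ) ∣ vt y j - k * vt x j := by
  obtain ⟨a, ha⟩ := hx
  refine ⟨∑ i, a i * y i, fun j => ?_⟩
  have h1 : vt y j - (∑ i, a i * y i) * vt x j = ∑ i, a i * mnr x y i j.succ.succ := by
    have h2 : vt y j = (∑ i, a i * x i) * y j.succ.succ := by rw [ha, one_mul]; rfl
    have h3 : vt x j = x j.succ.succ := rfl
    rw [h2, h3, Finset.sum_mul, Finset.sum_mul, ← Finset.sum_sub_distrib]
    refine Finset.sum_congr rfl fun i _ => ?_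
    unfold mnr
    ring
  rw [h1]
  refine Finset.dvd_sum fun i _ => Dvd.dvd.mul_left ?_ _
  exact Int.natCast_dvd.2 (gm_dvd x y i j.succ.succ)

private theorem EX_bd {F : Mon (n + 2) → ℤ} {N : NF F} {m0 K X : ℕ} {e : Fin (n + 2) → ℤ}
    (he : e ∈ EX N m0 K X) : ∀ i, |e i| ≤ ((K * X : ℕ) : ℤ) := by
  classical
  unfold EX at he
  have h1 := (mem_filter.1 he).1
  unfold vb at h1
  rw [Fintype.mem_piFinset] at h1
  intro i
  exact abs_le.2 (mem_Icc.1 (h1 i))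

/-- the first bound -/
private theorem count1 {F : Mon (n + 2) → ℤ} {N : NF F} {m0 K X : ℕ} {C : ℝ}
    (hP : ∀ B D g : ℕ, 1 ≤ g →
      ∀ T : Finset ((Fin n → ℤ) × (Fin n → ℤ)), (∀ q ∈ T, q.1 ∈ vb n B ∧ q.2 ∈ vb n B ∧
      dm q.1 q.2 ≠ 0 ∧ dm q.1 q.2 ≤ D ∧ ∃ k : ℤ, ∀ j, (g : ℤ) ∣ q.2 j - k * q.1 j) →
      (T.card : ℝ) ≤ C * (B : ℝ) ^ 2 * ((D : ℝ) / g) ^ (n - 1))
    (hD : ∀ v : Fin n → ℤ, ∀ T : Finset (Fin (n + 2) → ℤ),
      (∀ e ∈ T, e ∈ EX N m0 K X ∧ vt e = v) → T.card ≤ 2 * m0)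
    {g D' : ℕ} (hg : 1 ≤ g) (S : Finset ((Fin (n + 2) → ℤ) × (Fin (n + 2) → ℤ)))
    (hS : ∀ q ∈ S, q.1 ∈ EX N m0 K X ∧ q.2 ∈ EX N m0 K X ∧ Prm q.1 ∧
      dm (vt q.1) (vt q.2) ≠ 0 ∧ gm q.1 q.2 = g ∧ dm q.1 q.2 ≤ D') :
    (S.card : ℝ) ≤ (2 * m0 : ℝ) ^ 2 * C * (K : ℝ) ^ 2 * (X : ℝ) ^ 2 * ((D' : ℝ) / g) ^ (n - 1) := by
  classical
  obtain ⟨φ, hφ⟩ : ∃ φ : (Fin (n + 2) → ℤ) × (Fin (n + 2) → ℤ) → (Fin n → ℤ) × (Fin n → ℤ),
      φ = fun q => (vt q.1, vt q.2) := ⟨_, rfl⟩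
  have h1 : S.card ≤ (2 * m0) ^ 2 * (S.image φ).card := by
    refine card_le_mul_card_image S _ fun k _ => ?_
    have h2 : (S.filter fun q => φ q = k) ⊆
        ((S.image Prod.fst).filter fun e => vt e = k.1) ×ˢ
        ((S.image Prod.snd).filter fun e => vt e = k.2) := by
      intro q hq
      rw [mem_filter, hφ] at hq
      rw [mem_product, mem_filter, mem_filter]
      refine ⟨⟨mem_image_of_mem _ hq.1, ?_⟩, mem_image_of_mem _ hq.1, ?_⟩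
      · rw [← hq.2]
      · rw [← hq.2]
    refine (card_le_card h2).trans ?_
    rw [card_product, sq]
    refine Nat.mul_le_mul (hD k.1 _ ?_) (hD k.2 _ ?_)
    · intro e he
      rw [mem_filter, mem_image] at he
      obtain ⟨⟨q, hq, rfl⟩, h3⟩ := he
      exact ⟨(hS q hq).1, h3⟩
    · intro e he
      rw [mem_filter, mem_image] at he
      obtain ⟨⟨q, hq, rfl⟩, h3⟩ := he
      exact ⟨(hS q hq).2.1, h3⟩
  have h2 := hP (K * X) D' g hg (S.image φ) (by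
    intro r hr
    rw [mem_image] at hr
    obtain ⟨q, hq, rfl⟩ := hr
    obtain ⟨a1, a2, a3, a4, a5, a6⟩ := hS q hq
    have hvb : ∀ e ∈ EX N m0 K X, vt e ∈ vb n (K * X) := by
      intro e he
      unfold vb
      rw [Fintype.mem_piFinset]
      intro i
      exact mem_Icc.2 (abs_le.1 (EX_bd he i.succ.succ))
    rw [hφ]
    refine ⟨hvb _ a1, hvb _ a2, a4, (dm_vt_le _ _).trans a6, ?_⟩
    have h3 := prop_mod (y := q.2) a3
    rw [a5] at h3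
    exact h3)
  have h3 : (S.card : ℝ) ≤ (2 * m0 : ℝ) ^ 2 * ((S.image φ).card : ℝ) := by exact_mod_cast h1
  refine h3.trans ((mul_le_mul_of_nonneg_left h2 (by positivity)).trans (le_of_eq ?_))
  push_cast
  ring

end

/-- the logarithm is small -/
private theorem log_small : ∃ X₁ : ℕ, ∀ X : ℕ, X₁ ≤ X → 1 ≤ Real.log X ∧
    Real.log X ^ 3 ≤ X := by
  have h1 : ∀ᶠ x : ℝ in Filter.atTop, Real.log x ^ 3 ≤ x := by
    have h2 := (isLittleO_log_rpow_atTop (show (0 : ℝ) < 1 / 3 by norm_num)).bound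
      (show (0 : ℝ) < 1 by norm_num)
    filter_upwards [h2, Filter.eventually_ge_atTop (1 : ℝ)] with x hx hx1
    have h3 : Real.log x ≤ x ^ (1 / 3 : ℝ) := by
      rw [one_mul, Real.norm_eq_abs, Real.norm_eq_abs, abs_of_nonneg (Real.log_nonneg hx1),
        abs_of_nonneg (Real.rpow_nonneg (by linarith) _)] at hx
      exact hx
    calc Real.log x ^ 3 ≤ (x ^ (1 / 3 : ℝ)) ^ 3 :=
          pow_le_pow_left₀ (Real.log_nonneg hx1) h3 3
      _ = x := by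
          rw [← Real.rpow_natCast, ← Real.rpow_mul (by linarith)]
          norm_num
  have h4 : ∀ᶠ x : ℝ in Filter.atTop, 1 ≤ Real.log x := by
    filter_upwards [Filter.eventually_ge_atTop (Real.exp 1)] with x hx
    rw [Real.le_log_iff_exp_le (lt_of_lt_of_le (Real.exp_pos 1) hx)]
    exact hx
  have h5 := tendsto_natCast_atTop_atTop.eventually (h4.and h1)
  obtain ⟨X₁, hX₁⟩ := Filter.eventually_atTop.1 h5
  exact ⟨X₁, fun X hX => hX₁ X hX⟩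

theorem pf_SE0 (hSM1 : T_SM1) (hNSM : T_NSM) (hPAV : T_PAV) (hPAR : T_PAR) (hDVC : T_DVC) :
    T_SE0 := by
  classical
  intro n F N m0 K hn
  obtain ⟨C₁, hC₁, hS⟩ := hSM1 n (2 * K ^ 2 + 1) hn (by omega)
  obtain ⟨C₂, hC₂, X₂, hN⟩ := hNSM n F N m0 K hn
  obtain ⟨C₃, hC₃, hP⟩ := hPAV n (by omega)
  obtain ⟨C₄, hC₄, X₄, hR⟩ := hPAR n F N m0 K hn
  obtain ⟨X₅, hD⟩ := hDVC n F N m0 K
  obtain ⟨X₆, hlog⟩ := log_small
  obtain ⟨C₀, hC₀⟩ : ∃ C₀ : ℝ, C₀ = (2 * m0 : ℝ) ^ 2 * C₃ * (K : ℝ) ^ 2 + C₂ := ⟨_, rfl⟩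
  have hC₀0 : 0 < C₀ := by rw [hC₀]; positivity
  refine ⟨C₁ * C₀ + (2 * (K : ℝ) ^ 2 + 1) * C₄, by positivity, X₂ + X₄ + X₅ + X₆ + 1, ?_⟩
  intro X W w κ hX hw hW hκ hκ1
  have hX1 : 1 ≤ X := by omega
  have hX1' : (1 : ℝ) ≤ X := by exact_mod_cast hX1
  obtain ⟨hl1, hl3⟩ := hlog X (by omega)
  obtain ⟨Λ, hΛ⟩ : ∃ Λ : ℝ, Λ = Real.log X := ⟨_, rfl⟩
  rw [← hΛ] at hl1 hl3
  rw [← hΛ]
  have hw0 : (0 : ℝ) < w := by exact_mod_cast hw
  have hZ0 : (0 : ℝ) ≤ ((X : ℝ) ^ n / Λ) ^ 2 := by positivity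
  -- the terms
  obtain ⟨τ, hτ⟩ : ∃ τ : (Fin (n + 2) → ℤ) × (Fin (n + 2) → ℤ) → ℝ,
      τ = fun q => (gm q.1 q.2 : ℝ) / dm q.1 q.2 * X ^ 2 *
        (if gm q.1 q.2 ∣ W then κ * X ^ 2 / dm q.1 q.2 else 1) := ⟨_, rfl⟩
  have hτ0 : ∀ q, 0 ≤ τ q := by
    intro q
    rw [hτ]
    beta_reduce
    split_ifs <;> positivity
  obtain ⟨Q, hQ⟩ : ∃ Q : Finset ((Fin (n + 2) → ℤ) × (Fin (n + 2) → ℤ)),
      Q = (EX N m0 K X ×ˢ EX N m0 K X).filter
        (fun q => Prm q.1 ∧ Prm q.2 ∧ dm q.1 q.2 ≠ 0) := ⟨_, rfl⟩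
  have hQm : ∀ q ∈ Q, q.1 ∈ EX N m0 K X ∧ q.2 ∈ EX N m0 K X ∧ Prm q.1 ∧ dm q.1 q.2 ≠ 0 := by
    intro q hq
    rw [hQ, mem_filter, mem_product] at hq
    exact ⟨hq.1.1, hq.1.2, hq.2.1, hq.2.2.2⟩
  have hgoal : ∑ q ∈ Q, τ q ≤ (C₁ * C₀ + (2 * (K : ℝ) ^ 2 + 1) * C₄) *
      ((X : ℝ) ^ n / Λ) ^ 2 * (1 / w + κ + 1 / Λ) := by
    rw [← Finset.sum_filter_add_sum_filter_not Q (fun q => dm (vt q.1) (vt q.2) = 0) τ]
    have hdm : ∀ q ∈ Q, dm q.1 q.2 ≤ (2 * K ^ 2 + 1) * X ^ 2 := by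
      intro q hq
      obtain ⟨a1, a2, -, -⟩ := hQm q hq
      refine (dm_le (EX_bd a1) (EX_bd a2)).trans ?_
      rw [mul_pow]
      nlinarith [Nat.zero_le (X ^ 2)]
    -- the parallel pairs
    have hpar : ∑ q ∈ Q.filter (fun q => dm (vt q.1) (vt q.2) = 0), τ q ≤
        (2 * (K : ℝ) ^ 2 + 1) * C₄ * (((X : ℝ) ^ n / Λ) ^ 2 * (1 / Λ)) := by
      have h1 : ∀ q ∈ Q.filter (fun q => dm (vt q.1) (vt q.2) = 0),
          τ q ≤ (2 * (K : ℝ) ^ 2 + 1) * ((gm q.1 q.2 : ℝ) * ((X : ℝ) ^ 2 / dm q.1 q.2) ^ 2) := by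
        intro q hq
        have hq' := (mem_filter.1 hq).1
        have hd := hdm q hq'
        have hd0 : (0 : ℝ) < dm q.1 q.2 := by
          have := (hQm q hq').2.2.2
          exact_mod_cast Nat.pos_of_ne_zero this
        have hd' : (dm q.1 q.2 : ℝ) ≤ (2 * (K : ℝ) ^ 2 + 1) * (X : ℝ) ^ 2 := by exact_mod_cast hd
        have hr : (1 : ℝ) ≤ (2 * (K : ℝ) ^ 2 + 1) * ((X : ℝ) ^ 2 / dm q.1 q.2) := by
          rw [mul_div_assoc', le_div_iff₀ hd0, one_mul]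
          exact hd'
        have hr2 : (if gm q.1 q.2 ∣ W then κ * (X : ℝ) ^ 2 / dm q.1 q.2 else 1) ≤
            (2 * (K : ℝ) ^ 2 + 1) * ((X : ℝ) ^ 2 / dm q.1 q.2) := by
          split_ifs
          · have e1 : κ * (X : ℝ) ^ 2 / dm q.1 q.2 = κ * ((X : ℝ) ^ 2 / dm q.1 q.2) := by ring
            rw [e1]
            apply mul_le_mul_of_nonneg_right _ (by positivity)
            have : (0 : ℝ) ≤ (K : ℝ) ^ 2 := by positivity
            linarith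
          · exact hr
        rw [hτ]
        have e2 : (gm q.1 q.2 : ℝ) / dm q.1 q.2 * X ^ 2 =
            (gm q.1 q.2 : ℝ) * ((X : ℝ) ^ 2 / dm q.1 q.2) := by ring
        calc (gm q.1 q.2 : ℝ) / dm q.1 q.2 * X ^ 2 *
            (if gm q.1 q.2 ∣ W then κ * X ^ 2 / dm q.1 q.2 else 1)
            ≤ (gm q.1 q.2 : ℝ) / dm q.1 q.2 * X ^ 2 *
              ((2 * (K : ℝ) ^ 2 + 1) * ((X : ℝ) ^ 2 / dm q.1 q.2)) :=
              mul_le_mul_of_nonneg_left hr2 (by positivity)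
          _ = _ := by rw [e2]; ring
      have h2 := Finset.sum_le_sum h1
      rw [← Finset.mul_sum] at h2
      have h3 : ∑ q ∈ Q.filter (fun q => dm (vt q.1) (vt q.2) = 0),
          (gm q.1 q.2 : ℝ) * ((X : ℝ) ^ 2 / dm q.1 q.2) ^ 2 ≤ C₄ * (X : ℝ) ^ (n + 3) := by
        refine le_trans ?_ (hR X (by omega))
        refine Finset.sum_le_sum_of_subset_of_nonneg ?_ fun q _ _ => by positivity
        intro q hq
        rw [mem_filter] at hq ⊢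
        obtain ⟨a1, a2, -, a4⟩ := hQm q hq.1
        exact ⟨mem_product.2 ⟨a1, a2⟩, hq.2, a4⟩
      have h4 : (X : ℝ) ^ (n + 3) ≤ ((X : ℝ) ^ n / Λ) ^ 2 * (1 / Λ) := by
        have e1 : ((X : ℝ) ^ n / Λ) ^ 2 * (1 / Λ) = (X : ℝ) ^ (2 * n) / Λ ^ 3 := by
          rw [div_pow, ← pow_mul, div_mul_div_comm, mul_one, ← pow_succ, mul_comm n 2]
        rw [e1, le_div_iff₀ (by positivity)]
        calc (X : ℝ) ^ (n + 3) * Λ ^ 3 ≤ (X : ℝ) ^ (n + 3) * X :=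
              mul_le_mul_of_nonneg_left hl3 (by positivity)
          _ = (X : ℝ) ^ (n + 4) := by ring
          _ ≤ (X : ℝ) ^ (2 * n) := pow_le_pow_right₀ hX1' (by omega)
      calc ∑ q ∈ Q.filter (fun q => dm (vt q.1) (vt q.2) = 0), τ q
          ≤ (2 * (K : ℝ) ^ 2 + 1) * ∑ q ∈ Q.filter (fun q => dm (vt q.1) (vt q.2) = 0),
          (gm q.1 q.2 : ℝ) * ((X : ℝ) ^ 2 / dm q.1 q.2) ^ 2 := h2
        _ ≤ (2 * (K : ℝ) ^ 2 + 1) * (C₄ * (((X : ℝ) ^ n / Λ) ^ 2 * (1 / Λ))) := by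
          apply mul_le_mul_of_nonneg_left _ (by positivity)
          exact h3.trans (mul_le_mul_of_nonneg_left h4 hC₄.le)
        _ = _ := by ring
    -- the other pairs
    have hoth := hS ((Fin (n + 2) → ℤ) × (Fin (n + 2) → ℤ))
      (Q.filter (fun q => ¬ dm (vt q.1) (vt q.2) = 0)) (fun q => gm q.1 q.2)
      (fun q => dm q.1 q.2) X W w C₀ κ Λ hX1 hC₀0.le hκ hκ1 hl1 hw hW (by
        intro q hq
        have hq' := (mem_filter.1 hq).1
        have h0 := (hQm q hq').2.2.2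
        exact ⟨gm_pos h0, gm_le_dm h0, hdm q hq'⟩) (by
        intro g D' hg
        have h1 := count1 (N := N) (m0 := m0) (K := K) (X := X) (C := C₃)
          (by
            intro B D g hg T hT
            refine le_trans (Nat.cast_le.2 (card_le_card ?_)) (hP B D g hg)
            intro q hq
            obtain ⟨b1, b2, b3, b4, b5⟩ := hT q hq
            exact mem_filter.2 ⟨mem_product.2 ⟨b1, b2⟩, b3, b4, b5⟩)
          (by
            intro v T hT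
            refine le_trans (card_le_card ?_) (hD X (by omega) v)
            intro e he
            exact mem_filter.2 (hT e he)) (D' := D') hg
          ((Q.filter (fun q => ¬ dm (vt q.1) (vt q.2) = 0)).filter
            fun i => gm i.1 i.2 = g ∧ dm i.1 i.2 ≤ D')
          (by
            intro q hq
            rw [mem_filter, mem_filter] at hq
            obtain ⟨a1, a2, a3, -⟩ := hQm q hq.1.1
            exact ⟨a1, a2, a3, hq.1.2, hq.2.1, hq.2.2⟩)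
        refine h1.trans ?_
        have h2 : (0 : ℝ) ≤ (X : ℝ) ^ 2 * ((D' : ℝ) / g) ^ (n - 1) := by positivity
        rw [hC₀]
        nlinarith [mul_nonneg hC₂.le h2]) (by
        intro g D' hg hg3 hXD
        rw [hΛ] at hg3 hXD
        have h1 := hN X g D' (by omega) hg hg3 hXD
        rw [← hΛ] at h1
        have h2 : (((Q.filter (fun q => ¬ dm (vt q.1) (vt q.2) = 0)).filter
            fun i => gm i.1 i.2 = g ∧ dm i.1 i.2 ≤ D').card : ℝ) ≤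
            C₂ * ((X : ℝ) ^ n / Λ) ^ 2 * ((D' : ℝ) / X ^ 2) ^ n / (g : ℝ) ^ n := by
          refine le_trans (Nat.cast_le.2 (card_le_card ?_)) h1
          intro q hq
          rw [mem_filter, mem_filter] at hq
          obtain ⟨a1, a2, a3, -⟩ := hQm q hq.1.1
          exact mem_filter.2 ⟨mem_product.2 ⟨a1, a2⟩, dvd_of_eq hq.2.1.symm, hq.2.2⟩
        refine h2.trans ?_
        have h3 : C₂ ≤ C₀ := by
          rw [hC₀]
          have : 0 ≤ (2 * m0 : ℝ) ^ 2 * C₃ * (K : ℝ) ^ 2 := by positivity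
          linarith
        have h4 : C₂ * ((X : ℝ) ^ n / Λ) ^ 2 * ((D' : ℝ) / X ^ 2) ^ n / (g : ℝ) ^ n =
            C₂ * (((X : ℝ) ^ n / Λ) ^ 2 * ((D' : ℝ) / X ^ 2) ^ n / (g : ℝ) ^ n) := by ring
        have h5 : C₀ * ((X : ℝ) ^ n / Λ) ^ 2 * ((D' : ℝ) / X ^ 2) ^ n / (g : ℝ) ^ n =
            C₀ * (((X : ℝ) ^ n / Λ) ^ 2 * ((D' : ℝ) / X ^ 2) ^ n / (g : ℝ) ^ n) := by ring
        rw [h4, h5]
        exact mul_le_mul_of_nonneg_right h3 (by positivity))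
    have hoth' : ∑ q ∈ Q.filter (fun q => ¬ dm (vt q.1) (vt q.2) = 0), τ q ≤
        C₁ * C₀ * ((X : ℝ) ^ n / Λ) ^ 2 * (1 / w + κ + 1 / Λ) := by
      rw [hτ]
      exact hoth
    have h7 : (2 * (K : ℝ) ^ 2 + 1) * C₄ * (((X : ℝ) ^ n / Λ) ^ 2 * (1 / Λ)) ≤
        (2 * (K : ℝ) ^ 2 + 1) * C₄ * (((X : ℝ) ^ n / Λ) ^ 2 * (1 / w + κ + 1 / Λ)) := by
      apply mul_le_mul_of_nonneg_left _ (by positivity)
      apply mul_le_mul_of_nonneg_left _ hZ0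
      have : (0 : ℝ) ≤ 1 / w := by positivity
      linarith
    calc _ ≤ (2 * (K : ℝ) ^ 2 + 1) * C₄ * (((X : ℝ) ^ n / Λ) ^ 2 * (1 / w + κ + 1 / Λ)) +
        C₁ * C₀ * ((X : ℝ) ^ n / Λ) ^ 2 * (1 / w + κ + 1 / Λ) :=
          add_le_add (hpar.trans h7) hoth'
      _ = _ := by ring
  rw [hQ, hτ] at hgoal
  exact hgoal

end Pool.Agent.H16.HFQ
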